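import Pool.Agent.J4H75.NC.Stm

set_option autoImplicit false

/-! Project NC (helper75), pieces LST and CYC (helper68). -/

namespace Pool.Agent.J4H68.NC

open Equiv Pool.Agent.J4H75.NC

theorem t_LST : S_LST := by
  classical
  intro G _ _ A f hf hA
  haveI := Fintype.ofFinite G
  have hn : Nat.card G = (Finset.univ : Finset G).card := by
    rw [Nat.card_eq_fintype_card]
    rfl
  have hf' : f.IsCycleOn ((Finset.univ : Finset G) : Set G) := by
    rw [Finset.coe_univ]
    exact hf
  set n := Nat.card G with hnd
  set g : ℕ → G := fun k => (f ^ k) 1 with hg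
  have hg0 : g 0 = 1 := by simp [hg]
  have hg1 : ∀ k, g (k + 1) = f (g k) := by
    intro k
    simp only [hg]
    rw [pow_succ']
    rfl
  have hprod : ∀ k, ((List.range k).map (fun j => (g j)⁻¹ * g (j + 1))).prod = g k := by
    intro k
    induction k with
    | zero => simp [hg0]
    | succ k ih =>
      rw [List.prod_range_succ, ih]
      group
  have htake : ∀ k ≤ n, (((List.range n).map (fun j => (g j)⁻¹ * g (j + 1))).take k).prod = g k := by
    intro k hk
    rw [← List.map_take, List.take_range, min_eq_left hk]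
    exact hprod k
  refine ⟨(List.range n).map (fun j => (g j)⁻¹ * g (j + 1)), by simp, ?_, ?_, ?_⟩
  · intro a ha
    rw [List.mem_map] at ha
    obtain ⟨k, -, rfl⟩ := ha
    rw [hg1]
    exact hA _
  · rw [hprod]
    show (f ^ n) 1 = 1
    rw [hf'.pow_apply_eq (Finset.mem_univ 1), hn]
  · have h1 : (List.range n).map (fun k => (((List.range n).map (fun j => (g j)⁻¹ * g (j + 1))).take (k + 1)).prod) =
        (List.range n).map (fun k => g (k + 1)) := by
      apply List.map_congr_left
      intro k hk
      rw [List.mem_range] at hk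
      exact htake (k + 1) hk
    rw [h1]
    refine List.Nodup.map_on ?_ List.nodup_range
    intro x hx y hy hxy
    rw [List.mem_range] at hx hy
    have h2 : x + 1 ≡ y + 1 [MOD (Finset.univ : Finset G).card] :=
      (hf'.pow_apply_eq_pow_apply (Finset.mem_univ 1)).1 hxy
    have h3 : x ≡ y [MOD n] := by
      rw [hn]
      exact Nat.ModEq.add_right_cancel' 1 h2
    exact Nat.ModEq.eq_of_lt_of_lt h3 hx hy

theorem t_CYC : S_CYC := by
  classical
  intro G _ _ b
  have hmem : ∀ x, x * b ∈ Subgroup.zpowers b ↔ x ∈ Subgroup.zpowers b := fun x =>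
    Subgroup.mul_mem_cancel_right _ (Subgroup.mem_zpowers b)
  have hmem' : ∀ x, x * b⁻¹ ∈ Subgroup.zpowers b ↔ x ∈ Subgroup.zpowers b := fun x =>
    Subgroup.mul_mem_cancel_right _ (inv_mem (Subgroup.mem_zpowers b))
  let c : Perm G :=
    { toFun := fun x => if x ∈ Subgroup.zpowers b then x * b else x
      invFun := fun x => if x ∈ Subgroup.zpowers b then x * b⁻¹ else x
      left_inv := by
        intro x
        by_cases h : x ∈ Subgroup.zpowers b
        · simp only [h, if_true, (hmem x).2 h]
          simp
        · simp only [h, if_false]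
      right_inv := by
        intro x
        by_cases h : x ∈ Subgroup.zpowers b
        · simp only [h, if_true, (hmem' x).2 h]
          simp
        · simp only [h, if_false] }
  have hc1 : ∀ x ∈ Subgroup.zpowers b, c x = x * b := by
    intro x hx
    show (if x ∈ Subgroup.zpowers b then x * b else x) = x * b
    rw [if_pos hx]
  have hc2 : ∀ x ∉ Subgroup.zpowers b, c x = x := by
    intro x hx
    show (if x ∈ Subgroup.zpowers b then x * b else x) = x
    rw [if_neg hx]
  have hpow : ∀ k : ℕ, ∀ x ∈ Subgroup.zpowers b, (c ^ k) x = x * b ^ k := by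
    intro k
    induction k with
    | zero => intro x _; simp
    | succ k ih =>
      intro x hx
      rw [pow_succ, Perm.mul_apply, hc1 x hx, ih _ ((hmem x).2 hx), mul_assoc, ← pow_succ']
  refine ⟨c, ⟨?_, ?_⟩, hc2, hc1⟩
  · -- bijection on the subgroup
    refine ⟨?_, c.injective.injOn, ?_⟩
    · intro x hx
      rw [SetLike.mem_coe] at hx ⊢
      rw [hc1 x hx]
      exact (hmem x).2 hx
    · intro y hy
      rw [SetLike.mem_coe] at hy
      refine ⟨y * b⁻¹, (hmem' y).2 hy, ?_⟩
      rw [hc1 _ ((hmem' y).2 hy)]
      simp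
  · intro x hx y hy
    rw [SetLike.mem_coe] at hx hy
    have h1 : x⁻¹ * y ∈ Subgroup.zpowers b := mul_mem (inv_mem hx) hy
    have h2 : x⁻¹ * y ∈ Submonoid.powers b := by
      rwa [mem_powers_iff_mem_zpowers]
    obtain ⟨k, hk⟩ := h2
    refine ⟨(k : ℤ), ?_⟩
    rw [zpow_natCast, hpow k x hx]
    have hk' : b ^ k = x⁻¹ * y := hk
    rw [hk']
    simp

end Pool.Agent.J4H68.NC
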